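import Pool.Agent.Helper16.MD.Stmts

/-! Module PRD of MP_f13728_an: the Fourier coefficients of a product word are products. -/

set_option autoImplicit false

open Finset Filter
open scoped ComplexConjugate

namespace Pool.Agent.Helper16.MD

open Pool.Agent.Helper51.Mo (PM pw len Lev Orth len_pos per_mul)

theorem prd_split (L M : ℕ) (F : ℕ → ℂ) :
    ∑ n ∈ range (L * M), F n = ∑ y ∈ range M, ∑ x ∈ range L, F (x + L * y) := by
  induction M with
  | zero => simp
  | succ M ih =>
    rw [Nat.mul_succ, sum_range_add, ih, sum_range_succ]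
    congr 1
    exact sum_congr rfl fun x _ => by rw [add_comm]

theorem prd_ee_add (a b : ℝ) : ee (a + b) = ee a * ee b := by
  unfold ee
  rw [← Complex.exp_add]
  congr 1
  push_cast
  ring

theorem prd_ee_zero : ee 0 = 1 := by
  unfold ee
  simp

theorem st_PRD : ST_PRD := by
  intro β ℓ hℓ hper s k
  induction k generalizing s with
  | zero =>
    intro θ
    simp [len, pw, prd_ee_zero]
  | succ k ih =>
    intro θ
    have hL : 0 < ℓ s := hℓ s
    have hM : 0 < len ℓ (s + 1) k := len_pos ℓ hℓ _ _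
    have hLc : (ℓ s : ℂ) ≠ 0 := by exact_mod_cast hL.ne'
    have hMc : (len ℓ (s + 1) k : ℂ) ≠ 0 := by exact_mod_cast hM.ne'
    have h1 : ∑ x ∈ range (len ℓ s (k + 1)), ((pw β ℓ s (k + 1) x : ℝ) : ℂ) * ee (θ * x) =
        (∑ x ∈ range (ℓ s), ((β s x : ℝ) : ℂ) * ee (θ * x)) *
        ∑ y ∈ range (len ℓ (s + 1) k), ((pw β ℓ (s + 1) k y : ℝ) : ℂ) *
          ee ((θ * ℓ s) * y) := by
      rw [len, prd_split, sum_mul_sum, sum_comm]
      refine sum_congr rfl fun x hx => sum_congr rfl fun y _ => ?_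
      have hx' : x < ℓ s := mem_range.1 hx
      have h2 : (x + ℓ s * y) / ℓ s = y := by
        rw [Nat.add_mul_div_left _ _ hL, Nat.div_eq_of_lt hx', zero_add]
      have h3 : β s (x + ℓ s * y) = β s x := per_mul (β s) (ℓ s) (hper s) y x
      have h4 : θ * ((x + ℓ s * y : ℕ) : ℝ) = θ * x + θ * ℓ s * y := by
        push_cast
        ring
      rw [pw, h2, h3, h4, prd_ee_add]
      push_cast
      ring
    rw [prod_range_succ']
    have h5 : ∀ i ∈ range k, AW β ℓ (s + (i + 1)) (θ * len ℓ s (i + 1)) =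
        AW β ℓ (s + 1 + i) (θ * ℓ s * len ℓ (s + 1) i) := by
      intro i _
      have h6 : s + (i + 1) = s + 1 + i := by ring
      have h7 : θ * ((len ℓ s (i + 1) : ℕ) : ℝ) = θ * ℓ s * len ℓ (s + 1) i := by
        rw [len]
        push_cast
        ring
      rw [h6, h7]
    rw [prod_congr rfl h5, ← ih (s + 1) (θ * ℓ s), h1]
    have h8 : ((len ℓ s (k + 1) : ℕ) : ℂ) = (len ℓ (s + 1) k : ℂ) * (ℓ s : ℂ) := by
      rw [len]
      push_cast
      ring
    have h9 : AW β ℓ (s + 0) (θ * len ℓ s 0) =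
        ‖(∑ x ∈ range (ℓ s), ((β s x : ℝ) : ℂ) * ee (θ * x)) / (ℓ s : ℂ)‖ := by
      unfold AW
      simp [len]
    rw [h9, h8, ← norm_mul]
    congr 1
    field_simp

end Pool.Agent.Helper16.MD
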